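import Mathlib

namespace Pool.Agent.P.MP_f7f1a6_co

open scoped Pointwise BoundedContinuousFunction

variable {G : Type} [AddCommGroup G] [TopologicalSpace G]

/-- `m` is a translation-invariant mean on the bounded real functions on the discrete group `G`. -/
def IsInvariantMean (m : (G →ᵇ ℝ) →ₗ[ℝ] ℝ) : Prop :=
  (∀ f : G →ᵇ ℝ, (∀ x, 0 ≤ f x) → 0 ≤ m f) ∧
  (∀ f : G →ᵇ ℝ, (∀ x, f x = 1) → m f = 1) ∧
  (∀ (f g : G →ᵇ ℝ) (t : G), (∀ x, g x = f (x + t)) → m g = m f)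

/-- Upper Banach density: the supremum of `m (1_A)` over all invariant means `m`. -/
noncomputable def upperBanachDensity (A : Set G) : ℝ :=
  sSup {r : ℝ | ∃ (m : (G →ᵇ ℝ) →ₗ[ℝ] ℝ) (f : G →ᵇ ℝ), IsInvariantMean m ∧
    (∀ x, f x = A.indicator (fun _ => (1 : ℝ)) x) ∧ m f = r}

/-- The Bohr set `B(Λ; η)`. -/
def bohrSet (Λ : Finset (PontryaginDual (Multiplicative G))) (η : ℝ) : Set G :=
  {x | ∀ χ ∈ Λ, ‖((χ (Multiplicative.ofAdd x) : Circle) : ℂ) - 1‖ < η}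

/-- `S` is `(D, B)`-expanding. -/
def IsDBExpanding (S : Set G) : Prop :=
  ∀ A : Set G, 0 < upperBanachDensity A →
    ∃ (Λ : Finset (PontryaginDual (Multiplicative G))) (η : ℝ), 0 < η ∧ bohrSet Λ η ⊆ A - A + S

/-- `S` is a van der Corput set. -/
def IsVanDerCorput (S : Set G) : Prop :=
  ∀ [MeasurableSpace (PontryaginDual (Multiplicative G))]
    [BorelSpace (PontryaginDual (Multiplicative G))]
    (σ : MeasureTheory.Measure (PontryaginDual (Multiplicative G))),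
    MeasureTheory.IsFiniteMeasure σ →
    (∀ s ∈ S, ∫ χ, ((χ (Multiplicative.ofAdd s) : Circle) : ℂ) ∂σ = 0) → σ {1} = 0

end Pool.Agent.P.MP_f7f1a6_co
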