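import Mathlib

/-! A two-family forbidden intersection theorem in the style of Frankl and Rodl. -/

namespace Pool.Agent.P.MP_f7f1a6_co

open Finset

/-- size of the intersection of two 0/1 vectors -/
def inter {m : ℕ} (x y : Fin m → ZMod 2) : ℕ := ∑ i, if x i = 1 ∧ y i = 1 then 1 else 0

lemma inter_cons {m : ℕ} (a b : ZMod 2) (x y : Fin m → ZMod 2) :
    inter (Fin.cons a x : Fin (m + 1) → ZMod 2) (Fin.cons b y) =
      (if a = 1 ∧ b = 1 then 1 else 0) + inter x y := by
  unfold inter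
  rw [Fin.sum_univ_succ]
  rfl

lemma sum_zmod2 {M : Type*} [AddCommMonoid M] (f : ZMod 2 → M) : ∑ a, f a = f 0 + f 1 := by
  have : (Finset.univ : Finset (ZMod 2)) = {0, 1} := by decide
  rw [this, Finset.sum_pair (by decide)]

lemma sum_cube_succ {m : ℕ} (f : (Fin (m + 1) → ZMod 2) → ℝ) :
    ∑ x, f x = ∑ x : Fin m → ZMod 2, f (Fin.cons 0 x) + ∑ x : Fin m → ZMod 2, f (Fin.cons 1 x) := by
  rw [← (Fin.consEquiv (fun _ : Fin (m + 1) => ZMod 2)).sum_comp, Fintype.sum_prod_type, sum_zmod2]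
  rfl

lemma one_dim (T c f0 f1 g0 g1 : ℝ) (hT : 1 ≤ T) (hc : 0 ≤ c) (hf0 : 0 ≤ f0) (hf1 : 0 ≤ f1)
    (hg0 : 0 ≤ g0) (hg1 : 0 ≤ g1) (h00 : f0 * g0 ≤ c) (h01 : f0 * g1 ≤ c) (h10 : f1 * g0 ≤ c)
    (h11 : f1 * g1 ≤ T * c) : (f0 + f1) * (g0 + g1) ≤ (2 + T + T⁻¹) * c := by
  have hT0 : 0 < T := by linarith
  have h1 : (f0 * g0) * (f1 * g1) ≤ c * c := by
    have : (f0 * g0) * (f1 * g1) = (f0 * g1) * (f1 * g0) := by ring
    rw [this]
    exact mul_le_mul h01 h10 (by positivity) hc
  have h2 : f0 * g0 ≤ T * c := by nlinarith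
  have h3 : 0 ≤ (T * c - f0 * g0) * (T * c - f1 * g1) := mul_nonneg (by linarith) (by linarith)
  have h4 : f0 * g0 + f1 * g1 ≤ (T + T⁻¹) * c := by
    rcases hc.eq_or_lt with rfl | hc'
    · have : f0 * g0 ≤ 0 := h00
      have : f1 * g1 ≤ 0 := by simpa using h11
      simp only [mul_zero]; linarith
    · have h5 : (T * c) * (f0 * g0 + f1 * g1) ≤ (T * c) * ((T + T⁻¹) * c) := by
        have : (T * c) * ((T + T⁻¹) * c) = (T * c) * (T * c) + c * c := by field_simp
        rw [this]; nlinarith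
      exact le_of_mul_le_mul_left h5 (by positivity)
  nlinarith

lemma conc (T : ℝ) (hT : 1 ≤ T) : ∀ (m : ℕ) (c : ℝ) (f g : (Fin m → ZMod 2) → ℝ), 0 ≤ c →
    (∀ x, 0 ≤ f x) → (∀ y, 0 ≤ g y) → (∀ x y, f x * g y ≤ c * T ^ inter x y) →
    (∑ x, f x) * (∑ y, g y) ≤ (2 + T + T⁻¹) ^ m * c := by
  intro m
  induction m with
  | zero =>
    intro c f g hc hf hg h
    rw [Fintype.sum_unique, Fintype.sum_unique]
    refine le_trans (h _ _) ?_
    simp [inter]
  | succ m ih =>
    intro c f g hc hf hg h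
    have hT0 : 0 < T := by linarith
    rw [sum_cube_succ f, sum_cube_succ g]
    have key : ∀ a b : ZMod 2, (∑ x : Fin m → ZMod 2, f (Fin.cons a x)) *
        (∑ y : Fin m → ZMod 2, g (Fin.cons b y)) ≤
        (2 + T + T⁻¹) ^ m * (c * T ^ (if a = 1 ∧ b = 1 then 1 else 0)) := by
      intro a b
      apply ih _ _ _ (by positivity) (fun x => hf _) (fun y => hg _)
      intro x y
      have := h (Fin.cons a x) (Fin.cons b y)
      rw [inter_cons, pow_add] at this
      linarith
    have h00 := key 0 0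
    have h01 := key 0 1
    have h10 := key 1 0
    have h11 := key 1 1
    simp at h00 h01 h10 h11
    have := one_dim T ((2 + T + T⁻¹) ^ m * c) _ _ _ _ hT (by positivity)
      (Finset.sum_nonneg fun x _ => hf _) (Finset.sum_nonneg fun x _ => hf _)
      (Finset.sum_nonneg fun x _ => hg _) (Finset.sum_nonneg fun x _ => hg _) h00 h01 h10
      (by linarith)
    rw [pow_succ]
    linarith

lemma step_norm (x y w : ℝ) (hw : 0 ≤ w) (hx1 : x ≤ 1)
    (h11 : (1 + x) * (1 + y) < 101 / 100) (h10 : (1 + x) * (1 - y) < 101 / 100)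
    (h0u : (1 - x) * (1 + w) < 101 / 100) (h1i : (1 + x) * (1 - w) < 1979 / 2000) : False := by
  have hx : x < 1 / 100 := by nlinarith
  have h2 : 1 / 2000 < 2 * (x * w) := by nlinarith
  have hx0 : 0 < x := by
    by_contra hneg
    push Not at hneg
    nlinarith [mul_nonneg (neg_nonneg.mpr hneg) hw]
  have hw2 : w * (99 / 100) < 2 / 100 := by nlinarith
  nlinarith

lemma step (a0 a1 b0 b1 bu bi P : ℝ) (ha0 : 0 ≤ a0) (ha1 : 0 ≤ a1) (hb0 : 0 ≤ b0) (hb1 : 0 ≤ b1)
    (hP : 0 ≤ P) (hu0 : b0 ≤ bu) (hu1 : b1 ≤ bu) (hui : bu + bi = b0 + b1)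
    (h11 : a1 * b1 ≤ 101 / 100 * P) (h10 : a1 * b0 ≤ 101 / 100 * P)
    (h0u : a0 * bu ≤ 101 / 100 * P) (h1i : a1 * bi ≤ 1979 / 2000 * P) :
    (a0 + a1) * (b0 + b1) ≤ 4 * P := by
  by_contra hcon
  push Not at hcon
  have hab : 0 < (a0 + a1) * (b0 + b1) := by linarith
  have ha : 0 < a0 + a1 := by
    rcases (add_nonneg ha0 ha1).eq_or_lt with h | h
    · rw [← h] at hab; simp at hab
    · exact h
  have hb : 0 < b0 + b1 := by
    rcases (add_nonneg hb0 hb1).eq_or_lt with h | h
    · rw [← h] at hab; simp at hab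
    · exact h
  set a := (a0 + a1) / 2 with hadef
  set b := (b0 + b1) / 2 with hbdef
  have ha' : 0 < a := by positivity
  have hb' : 0 < b := by positivity
  have hPab : P < a * b := by rw [hadef, hbdef]; nlinarith
  have hab' : 0 < a * b := by positivity
  have e1 : a1 = a * (1 + (a1 / a - 1)) := by field_simp; ring
  have e0 : a0 = a * (1 - (a1 / a - 1)) := by field_simp; rw [hadef]; ring
  have f1 : b1 = b * (1 + (b1 / b - 1)) := by field_simp; ring
  have f0 : b0 = b * (1 - (b1 / b - 1)) := by field_simp; rw [hbdef]; ring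
  have fu : bu = b * (1 + (bu / b - 1)) := by field_simp; ring
  have fi : bi = b * (1 - (bu / b - 1)) := by field_simp; rw [hbdef]; linarith
  have hw : 0 ≤ bu / b - 1 := by
    rw [sub_nonneg, le_div_iff₀ hb', hbdef]; linarith
  have hx1 : a1 / a - 1 ≤ 1 := by
    rw [sub_le_iff_le_add, div_le_iff₀ ha', hadef]; linarith
  generalize a1 / a - 1 = x at *
  generalize b1 / b - 1 = y at *
  generalize bu / b - 1 = w at *
  apply step_norm x y w hw hx1
  · apply lt_of_mul_lt_mul_left _ hab'.le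
    have : a * b * ((1 + x) * (1 + y)) = a1 * b1 := by rw [e1, f1]; ring
    rw [this]; nlinarith
  · apply lt_of_mul_lt_mul_left _ hab'.le
    have : a * b * ((1 + x) * (1 - y)) = a1 * b0 := by rw [e1, f0]; ring
    rw [this]; nlinarith
  · apply lt_of_mul_lt_mul_left _ hab'.le
    have : a * b * ((1 - x) * (1 + w)) = a0 * bu := by rw [e0, fu]; ring
    rw [this]; nlinarith
  · apply lt_of_mul_lt_mul_left _ hab'.le
    have : a * b * ((1 + x) * (1 - w)) = a1 * bi := by rw [e1, fi]; ring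
    rw [this]; nlinarith

/-- slice of a family along the first coordinate -/
def sl {m : ℕ} (a : ZMod 2) (A : Finset (Fin (m + 1) → ZMod 2)) : Finset (Fin m → ZMod 2) :=
  univ.filter fun x => (Fin.cons a x : Fin (m + 1) → ZMod 2) ∈ A

lemma mem_sl {m : ℕ} {a : ZMod 2} {A : Finset (Fin (m + 1) → ZMod 2)} {x : Fin m → ZMod 2} :
    x ∈ sl a A ↔ (Fin.cons a x : Fin (m + 1) → ZMod 2) ∈ A := by simp [sl]

lemma card_eq_sum {α : Type*} [Fintype α] [DecidableEq α] (A : Finset α) :
    (A.card : ℝ) = ∑ x, if x ∈ A then (1 : ℝ) else 0 := by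
  simp

lemma card_sl {m : ℕ} (A : Finset (Fin (m + 1) → ZMod 2)) :
    (A.card : ℝ) = (sl 0 A).card + (sl 1 A).card := by
  rw [card_eq_sum A, sum_cube_succ, card_eq_sum (sl 0 A), card_eq_sum (sl 1 A)]
  simp only [mem_sl]

lemma cross_large (T : ℝ) (hT : 1 ≤ T) (m β : ℕ) (A B : Finset (Fin m → ZMod 2))
    (h : ∀ a ∈ A, ∀ b ∈ B, β ≤ inter a b) :
    (A.card : ℝ) * B.card * T ^ β ≤ (2 + T + T⁻¹) ^ m := by
  have hT0 : 0 < T := by linarith
  have := conc T hT m 1 (fun x => if x ∈ A then 1 else 0) (fun y => if y ∈ B then T ^ β else 0)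
    zero_le_one (fun x => by split_ifs <;> norm_num) (fun y => by split_ifs <;> positivity)
    (fun x y => by
      split_ifs with h1 h2
      · simpa using pow_le_pow_right₀ hT (h x h1 y h2)
      · simp; positivity
      · simp; positivity
      · simp; positivity)
  rw [← card_eq_sum A] at this
  have e : ∑ y, (if y ∈ B then T ^ β else 0) = B.card * T ^ β := by
    rw [card_eq_sum B, Finset.sum_mul]
    refine Finset.sum_congr rfl fun y _ => by split_ifs <;> simp
  rw [e] at this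
  linarith

lemma fr (C : ℝ) (n L : ℕ)
    (hC1 : ∀ m ≤ n, ((2 + (2020 / 1979 : ℝ) + (2020 / 1979 : ℝ)⁻¹) * (201 / 800)) ^ m ≤ C)
    (hC2 : (2020 / 1979 : ℝ) ^ L ≤ C) :
    ∀ m ≤ n, ∀ α β : ℕ, α ≤ β → β ≤ L → ∀ A B : Finset (Fin m → ZMod 2),
      (∀ a ∈ A, ∀ b ∈ B, inter a b < α ∨ β < inter a b) →
      (A.card : ℝ) * B.card * (201 / 800 : ℝ) ^ m * (2020 / 1979 : ℝ) ^ β ≤
        C * (2010 / 1979 : ℝ) ^ α := by
  have hC0 : 0 < C := lt_of_lt_of_le (by positivity) hC2
  have base : ∀ m ≤ n, ∀ β : ℕ, ∀ A B : Finset (Fin m → ZMod 2),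
      (∀ a ∈ A, ∀ b ∈ B, inter a b < 0 ∨ β < inter a b) →
      (A.card : ℝ) * B.card * (201 / 800 : ℝ) ^ m * (2020 / 1979 : ℝ) ^ β ≤
        C * (2010 / 1979 : ℝ) ^ 0 := by
    intro m hm β A B h
    have h1 := cross_large (2020 / 1979) (by norm_num) m β A B (fun a ha b hb => by
      rcases h a ha b hb with h | h
      · omega
      · omega)
    have h2 := hC1 m hm
    rw [mul_pow] at h2
    have h3 : (0 : ℝ) ≤ (201 / 800 : ℝ) ^ m := by positivity
    calc (A.card : ℝ) * B.card * (201 / 800 : ℝ) ^ m * (2020 / 1979 : ℝ) ^ β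
        = (A.card : ℝ) * B.card * (2020 / 1979 : ℝ) ^ β * (201 / 800 : ℝ) ^ m := by ring
      _ ≤ (2 + (2020 / 1979 : ℝ) + (2020 / 1979 : ℝ)⁻¹) ^ m * (201 / 800 : ℝ) ^ m :=
          mul_le_mul_of_nonneg_right h1 h3
      _ ≤ C * (2010 / 1979 : ℝ) ^ 0 := by simpa using h2
  intro m
  induction m with
  | zero =>
    intro hm α β hαβ hβ A B h
    have hA : (A.card : ℝ) ≤ 1 := by
      have := Finset.card_le_univ A
      simp at this
      exact_mod_cast this
    have hB : (B.card : ℝ) ≤ 1 := by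
      have := Finset.card_le_univ B
      simp at this
      exact_mod_cast this
    have h1 : (2020 / 1979 : ℝ) ^ β ≤ C :=
      le_trans (pow_le_pow_right₀ (by norm_num) hβ) hC2
    have h2 : (1 : ℝ) ≤ (2010 / 1979 : ℝ) ^ α := one_le_pow₀ (by norm_num)
    have h3 : (A.card : ℝ) * B.card ≤ 1 := mul_le_one₀ hA (by positivity) hB
    have h4 : (0 : ℝ) ≤ (2020 / 1979 : ℝ) ^ β := by positivity
    rw [pow_zero, mul_one]
    nlinarith
  | succ m ih =>
    intro hm α β hαβ hβ A B h
    rcases α with _ | α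
    · exact base _ hm β A B h
    obtain ⟨β, rfl⟩ : ∃ β', β = β' + 1 := ⟨β - 1, by omega⟩
    have ih' := ih (by omega)
    have h11 := ih' α β (by omega) (by omega) (sl 1 A) (sl 1 B) (fun a ha b hb => by
      have := h _ (mem_sl.1 ha) _ (mem_sl.1 hb)
      rw [inter_cons] at this
      simp at this
      omega)
    have h10 := ih' (α + 1) (β + 1) hαβ hβ (sl 1 A) (sl 0 B) (fun a ha b hb => by
      have := h _ (mem_sl.1 ha) _ (mem_sl.1 hb)
      rw [inter_cons] at this
      simp at this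
      omega)
    have h0u := ih' (α + 1) (β + 1) hαβ hβ (sl 0 A) (sl 0 B ∪ sl 1 B) (fun a ha b hb => by
      rcases Finset.mem_union.1 hb with hb | hb
      · have := h _ (mem_sl.1 ha) _ (mem_sl.1 hb)
        rw [inter_cons] at this
        simp at this
        omega
      · have := h _ (mem_sl.1 ha) _ (mem_sl.1 hb)
        rw [inter_cons] at this
        simp at this
        omega)
    have h1i := ih' α (β + 1) (by omega) hβ (sl 1 A) (sl 0 B ∩ sl 1 B) (fun a ha b hb => by
      obtain ⟨hb0, hb1⟩ := Finset.mem_inter.1 hb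
      have h0 := h _ (mem_sl.1 ha) _ (mem_sl.1 hb0)
      have h1 := h _ (mem_sl.1 ha) _ (mem_sl.1 hb1)
      rw [inter_cons] at h0 h1
      simp at h0 h1
      omega)
    rw [card_sl A, card_sl B]
    set Q : ℝ := (201 / 800 : ℝ) ^ m * (2020 / 1979 : ℝ) ^ β with hQ
    have hQ0 : 0 < Q := by positivity
    set R : ℝ := C * (2010 / 1979 : ℝ) ^ α with hR
    have hR0 : 0 < R := by positivity
    have hui : ((sl 0 B ∪ sl 1 B).card : ℝ) + (sl 0 B ∩ sl 1 B).card =
        (sl 0 B).card + (sl 1 B).card := by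
      exact_mod_cast Finset.card_union_add_card_inter _ _
    have hu0 : ((sl 0 B).card : ℝ) ≤ (sl 0 B ∪ sl 1 B).card := by
      exact_mod_cast Finset.card_le_card Finset.subset_union_left
    have hu1 : ((sl 1 B).card : ℝ) ≤ (sl 0 B ∪ sl 1 B).card := by
      exact_mod_cast Finset.card_le_card Finset.subset_union_right
    have key := step (sl 0 A).card (sl 1 A).card (sl 0 B).card (sl 1 B).card
      (sl 0 B ∪ sl 1 B).card (sl 0 B ∩ sl 1 B).card (R / Q * (100 / 101))
      (by positivity) (by positivity) (by positivity) (by positivity) (by positivity) hu0 hu1 hui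
      (by
        have : (101 / 100 : ℝ) * (R / Q * (100 / 101)) = R / Q := by ring
        rw [this, le_div_iff₀ hQ0, hQ, ← mul_assoc]; exact h11)
      (by
        have : (101 / 100 : ℝ) * (R / Q * (100 / 101)) = R / Q := by ring
        rw [this, le_div_iff₀ hQ0]
        rw [pow_succ, pow_succ] at h10
        have e1 : ((sl 1 A).card : ℝ) * (sl 0 B).card * (201 / 800 : ℝ) ^ m *
          ((2020 / 1979 : ℝ) ^ β * (2020 / 1979)) =
          ((sl 1 A).card : ℝ) * (sl 0 B).card * Q * (2020 / 1979) := by rw [hQ]; ring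
        have e2 : C * ((2010 / 1979 : ℝ) ^ α * (2010 / 1979)) = R * (2010 / 1979) := by
          rw [hR]; ring
        rw [e1, e2] at h10
        linarith)
      (by
        have : (101 / 100 : ℝ) * (R / Q * (100 / 101)) = R / Q := by ring
        rw [this, le_div_iff₀ hQ0]
        rw [pow_succ, pow_succ] at h0u
        have e1 : ((sl 0 A).card : ℝ) * (sl 0 B ∪ sl 1 B).card * (201 / 800 : ℝ) ^ m *
          ((2020 / 1979 : ℝ) ^ β * (2020 / 1979)) =
          ((sl 0 A).card : ℝ) * (sl 0 B ∪ sl 1 B).card * Q * (2020 / 1979) := by rw [hQ]; ring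
        have e2 : C * ((2010 / 1979 : ℝ) ^ α * (2010 / 1979)) = R * (2010 / 1979) := by
          rw [hR]; ring
        rw [e1, e2] at h0u
        linarith)
      (by
        have : (1979 / 2000 : ℝ) * (R / Q * (100 / 101)) = (R * (1979 / 2020)) / Q := by ring
        rw [this, le_div_iff₀ hQ0]
        rw [pow_succ] at h1i
        have e1 : ((sl 1 A).card : ℝ) * (sl 0 B ∩ sl 1 B).card * (201 / 800 : ℝ) ^ m *
          ((2020 / 1979 : ℝ) ^ β * (2020 / 1979)) =
          ((sl 1 A).card : ℝ) * (sl 0 B ∩ sl 1 B).card * Q * (2020 / 1979) := by rw [hQ]; ring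
        rw [e1] at h1i
        linarith)
    have e3 : (4 : ℝ) * (R / Q * (100 / 101)) = (R * (400 / 101)) / Q := by ring
    rw [e3, le_div_iff₀ hQ0] at key
    rw [pow_succ, pow_succ, pow_succ]
    have e1 : (((sl 0 A).card : ℝ) + (sl 1 A).card) * ((sl 0 B).card + (sl 1 B).card) *
        ((201 / 800 : ℝ) ^ m * (201 / 800)) * ((2020 / 1979 : ℝ) ^ β * (2020 / 1979)) =
        (((sl 0 A).card : ℝ) + (sl 1 A).card) * ((sl 0 B).card + (sl 1 B).card) * Q *
          (201 / 800 * (2020 / 1979)) := by rw [hQ]; ring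
    have e2 : C * ((2010 / 1979 : ℝ) ^ α * (2010 / 1979)) = R * (2010 / 1979) := by
      rw [hR]; ring
    rw [e1, e2]
    linarith

/-- Hamming weight -/
def wt {ι : Type*} [Fintype ι] (x : ι → ZMod 2) : ℕ := ∑ i, if x i = 1 then 1 else 0

lemma zmod2_cases (a : ZMod 2) : a = 0 ∨ a = 1 := by revert a; decide

lemma wt_add_inter {m : ℕ} (x y : Fin m → ZMod 2) : wt (x + y) + 2 * inter x y = wt x + wt y := by
  unfold wt inter
  rw [Finset.mul_sum, ← Finset.sum_add_distrib, ← Finset.sum_add_distrib]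
  refine Finset.sum_congr rfl fun i _ => ?_
  rw [Pi.add_apply]
  generalize x i = a
  generalize y i = b
  revert a b
  decide

lemma wt_add_le {m : ℕ} (x y : Fin m → ZMod 2) : wt x + wt y ≤ m + inter x y := by
  unfold wt inter
  have : ∑ _i : Fin m, 1 = m := by simp
  refine le_trans ?_ (Nat.add_le_add_right this.le _)
  rw [← Finset.sum_add_distrib, ← Finset.sum_add_distrib]
  refine Finset.sum_le_sum fun i _ => ?_
  generalize x i = a
  generalize y i = b
  revert a b
  decide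

lemma wt_le {ι : Type*} [Fintype ι] (x : ι → ZMod 2) : wt x ≤ Fintype.card ι := by
  unfold wt
  calc ∑ i, (if x i = 1 then 1 else 0) ≤ ∑ _i : ι, 1 :=
        Finset.sum_le_sum fun i _ => by split_ifs <;> omega
    _ = Fintype.card ι := by simp

lemma wt_compl {ι : Type*} [Fintype ι] (x : ι → ZMod 2) : wt (x + 1) + wt x = Fintype.card ι := by
  unfold wt
  rw [← Finset.sum_add_distrib]
  calc ∑ i, ((if (x + 1) i = 1 then 1 else 0) + (if x i = 1 then 1 else 0)) = ∑ _i : ι, 1 := by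
        refine Finset.sum_congr rfl fun i _ => ?_
        rw [Pi.add_apply, Pi.one_apply]
        generalize x i = a
        revert a
        decide
    _ = Fintype.card ι := by simp

lemma wt_cast {ι : Type*} [Fintype ι] (x : ι → ZMod 2) : (wt x : ZMod 2) = ∑ i, x i := by
  unfold wt
  push_cast
  refine Finset.sum_congr rfl fun i _ => ?_
  generalize x i = a
  revert a
  decide

lemma layers_ge (r k k' : ℕ) (A B : Finset (Fin (16 * r) → ZMod 2)) (hA : ∀ a ∈ A, wt a = k)
    (hB : ∀ b ∈ B, wt b = k') (hk : 16 * r ≤ k + k') (hpar : Even (k + k'))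
    (h : ∀ a ∈ A, ∀ b ∈ B, wt (a + b) ≠ 12 * r) :
    (A.card : ℝ) * B.card ≤ (4 ^ 16 * (199 / 200)) ^ r := by
  set c : ℝ := (2 + (2020 / 1979 : ℝ) + (2020 / 1979 : ℝ)⁻¹) with hc
  have hfin : c ^ (16 * r) * (201 / 202 : ℝ) ^ (2 * r) ≤ (4 ^ 16 * (199 / 200)) ^ r := by
    rw [pow_mul, pow_mul, ← mul_pow]
    apply pow_le_pow_left₀ (by rw [hc]; positivity)
    rw [hc]; norm_num
  refine le_trans ?_ hfin
  by_cases hk2 : k + k' ≤ 18 * r
  · obtain ⟨s, hs⟩ := hpar
    have hl := fr ((c * (201 / 800)) ^ (16 * r)) (16 * r) (3 * r)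
      (fun m hm => pow_le_pow_right₀ (by norm_num) hm)
      (by
        rw [pow_mul, pow_mul]
        apply pow_le_pow_left₀ (by positivity)
        rw [hc]; norm_num)
      (16 * r) le_rfl (s - 6 * r) (s - 6 * r) le_rfl (by omega) A B (fun a ha b hb => by
        have h1 := wt_add_inter a b
        have h2 := h a ha b hb
        rw [hA a ha, hB b hb] at h1
        omega)
    have h2r : 2 * r ≤ s - 6 * r := by omega
    generalize s - 6 * r = l at *
    have e : (2010 / 1979 : ℝ) ^ l = (201 / 202) ^ l * (2020 / 1979) ^ l := by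
      rw [← mul_pow]; norm_num
    rw [mul_pow, e] at hl
    have hp1 : (0 : ℝ) < (201 / 800 : ℝ) ^ (16 * r) * (2020 / 1979) ^ l := by positivity
    have h3 : (A.card : ℝ) * B.card ≤ c ^ (16 * r) * (201 / 202 : ℝ) ^ l := by
      apply le_of_mul_le_mul_right _ hp1
      linarith
    refine le_trans h3 (mul_le_mul_of_nonneg_left ?_ (by rw [hc]; positivity))
    exact pow_le_pow_of_le_one (by norm_num) (by norm_num) h2r
  · have hl := cross_large (2020 / 1979) (by norm_num) (16 * r) (2 * r) A B (fun a ha b hb => by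
      have h1 := wt_add_le a b
      rw [hA a ha, hB b hb] at h1
      omega)
    rw [← hc] at hl
    have e : (1 : ℝ) ≤ (201 / 202) ^ (2 * r) * (2020 / 1979) ^ (2 * r) := by
      rw [← mul_pow]; exact one_le_pow₀ (by norm_num)
    have hp : (0 : ℝ) ≤ (A.card : ℝ) * B.card := by positivity
    have hp2 : (0 : ℝ) ≤ (201 / 202 : ℝ) ^ (2 * r) := by positivity
    calc (A.card : ℝ) * B.card ≤ (A.card : ℝ) * B.card *
          ((201 / 202) ^ (2 * r) * (2020 / 1979) ^ (2 * r)) := le_mul_of_one_le_right hp e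
      _ = (A.card : ℝ) * B.card * (2020 / 1979) ^ (2 * r) * (201 / 202) ^ (2 * r) := by ring
      _ ≤ c ^ (16 * r) * (201 / 202 : ℝ) ^ (2 * r) := mul_le_mul_of_nonneg_right hl hp2

lemma add_self_cube {ι : Type*} (x : ι → ZMod 2) : x + x = 0 := by
  funext i
  rw [Pi.add_apply, Pi.zero_apply]
  generalize x i = a
  revert a
  decide

lemma layers (r k k' : ℕ) (A B : Finset (Fin (16 * r) → ZMod 2)) (hA : ∀ a ∈ A, wt a = k)
    (hB : ∀ b ∈ B, wt b = k') (hpar : Even (k + k'))
    (h : ∀ a ∈ A, ∀ b ∈ B, wt (a + b) ≠ 12 * r) :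
    (A.card : ℝ) * B.card ≤ (4 ^ 16 * (199 / 200)) ^ r := by
  by_cases hk : 16 * r ≤ k + k'
  · exact layers_ge r k k' A B hA hB hk hpar h
  · have hinj : Function.Injective (fun x : Fin (16 * r) → ZMod 2 => x + 1) := add_left_injective 1
    have := layers_ge r (16 * r - k) (16 * r - k') (A.image (· + 1)) (B.image (· + 1))
      (fun a ha => by
        obtain ⟨a, ha', rfl⟩ := Finset.mem_image.1 ha
        have := wt_compl a
        rw [hA a ha', Fintype.card_fin] at this
        omega)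
      (fun a ha => by
        obtain ⟨a, ha', rfl⟩ := Finset.mem_image.1 ha
        have := wt_compl a
        rw [hB a ha', Fintype.card_fin] at this
        omega)
      (by omega)
      (by
        obtain ⟨s, hs⟩ := hpar
        exact ⟨16 * r - s, by omega⟩)
      (fun a ha b hb => by
        obtain ⟨a, ha', rfl⟩ := Finset.mem_image.1 ha
        obtain ⟨b, hb', rfl⟩ := Finset.mem_image.1 hb
        have e : a + 1 + (b + 1) = a + b := by
          have := add_self_cube (1 : Fin (16 * r) → ZMod 2)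
          calc a + 1 + (b + 1) = a + b + (1 + 1) := by abel
            _ = a + b := by rw [this, add_zero]
        rw [e]
        exact h a ha' b hb')
    rwa [Finset.card_image_of_injective _ hinj, Finset.card_image_of_injective _ hinj] at this

lemma dense_fin (r : ℕ) (F : Finset (Fin (16 * r) → ZMod 2)) (x : Fin (16 * r) → ZMod 2)
    (hx : ∑ i, x i = 0) (h : ∀ a ∈ F, ∀ b ∈ F, wt (x + a + b) ≠ 12 * r) :
    (F.card : ℝ) ^ 2 ≤ (16 * r + 1) ^ 4 * (4 ^ 16 * (199 / 200)) ^ r := by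
  classical
  have hmaps : ∀ a ∈ F, (wt a, wt (a + x)) ∈ (range (16 * r + 1)) ×ˢ (range (16 * r + 1)) := by
    intro a _
    have h1 := wt_le a
    have h2 := wt_le (a + x)
    simp only [Fintype.card_fin] at h1 h2
    simp only [Finset.mem_product, Finset.mem_range]
    omega
  have hcard := Finset.card_eq_sum_card_fiberwise hmaps
  have hb : ∀ p ∈ (range (16 * r + 1)) ×ˢ (range (16 * r + 1)),
      ((F.filter fun a => (wt a, wt (a + x)) = p).card : ℝ) ≤
        Real.sqrt ((4 ^ 16 * (199 / 200)) ^ r) := by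
    rintro ⟨k, k'⟩ _
    apply Real.le_sqrt_of_sq_le
    set A := F.filter fun a => (wt a, wt (a + x)) = (k, k') with hAdef
    rcases A.eq_empty_or_nonempty with hA | ⟨a0, ha0⟩
    · rw [hA]; simp; positivity
    have hinj : Function.Injective (fun a : Fin (16 * r) → ZMod 2 => a + x) := add_left_injective x
    have hmem : ∀ a ∈ A, a ∈ F ∧ wt a = k ∧ wt (a + x) = k' := by
      intro a ha
      rw [hAdef, Finset.mem_filter, Prod.mk.injEq] at ha
      exact ha
    have := layers r k k' A (A.image (· + x)) (fun a ha => (hmem a ha).2.1)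
      (fun a ha => by
        obtain ⟨a, ha', rfl⟩ := Finset.mem_image.1 ha
        exact (hmem a ha').2.2)
      (by
        obtain ⟨-, h1, h2⟩ := hmem a0 ha0
        rw [← ZMod.natCast_eq_zero_iff_even, ← h1, ← h2]
        push_cast
        rw [wt_cast, wt_cast]
        simp only [Pi.add_apply, Finset.sum_add_distrib, hx, add_zero]
        generalize ∑ i, a0 i = a
        revert a
        decide)
      (fun a ha b hb => by
        obtain ⟨b, hb', rfl⟩ := Finset.mem_image.1 hb
        have e : a + (b + x) = x + a + b := by abel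
        rw [e]
        exact h a (hmem a ha).1 b (hmem b hb').1)
    rw [Finset.card_image_of_injective _ hinj] at this
    rw [sq]; exact this
  have h1 : (F.card : ℝ) ≤ (16 * r + 1) ^ 2 * Real.sqrt ((4 ^ 16 * (199 / 200)) ^ r) := by
    rw [hcard]
    push_cast
    refine le_trans (Finset.sum_le_card_nsmul _ _ _ hb) ?_
    simp only [Finset.card_product, Finset.card_range, nsmul_eq_mul]
    push_cast
    rw [sq]
  have h2 : (0 : ℝ) ≤ (4 ^ 16 * (199 / 200)) ^ r := by positivity
  calc (F.card : ℝ) ^ 2 ≤ ((16 * r + 1) ^ 2 * Real.sqrt ((4 ^ 16 * (199 / 200)) ^ r)) ^ 2 :=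
        pow_le_pow_left₀ (by positivity) h1 2
    _ = (16 * r + 1) ^ 4 * (4 ^ 16 * (199 / 200)) ^ r := by
        rw [mul_pow, Real.sq_sqrt h2]; ring

/-- the finite statement used: a dense subset of a large cube realises every even vector up to an
error vector of weight exactly three quarters of the dimension -/
theorem dense_cube (δ : ℝ) (hδ : 0 < δ) : ∃ r0 : ℕ, ∀ r ≥ r0, ∀ (ι : Type) [Fintype ι]
    [DecidableEq ι], Fintype.card ι = 16 * r → ∀ (F : Finset (ι → ZMod 2)) (x : ι → ZMod 2),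
    δ * 2 ^ (16 * r) ≤ F.card → ∑ i, x i = 0 → ∃ a ∈ F, ∃ b ∈ F, wt (x + a + b) = 12 * r := by
  have ht := tendsto_pow_const_mul_const_pow_of_abs_lt_one 4
    (r := (199 / 200 : ℝ)) (by rw [abs_of_pos] <;> norm_num)
  have hev := (ht.eventually (gt_mem_nhds (show (0 : ℝ) < δ ^ 2 / 17 ^ 4 by positivity)))
  obtain ⟨r0, hr0⟩ := Filter.eventually_atTop.1 hev
  refine ⟨max r0 1, fun r hr ι _ _ hι F x hF hx => ?_⟩
  by_contra hcon
  push Not at hcon
  let e : ι ≃ Fin (16 * r) := Fintype.equivFinOfCardEq hι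
  let E : (ι → ZMod 2) ≃ (Fin (16 * r) → ZMod 2) := Equiv.arrowCongr e (Equiv.refl _)
  have hE : ∀ y : ι → ZMod 2, ∀ j, E y j = y (e.symm j) := fun y j => rfl
  have hwt : ∀ y : ι → ZMod 2, wt (E y) = wt y := by
    intro y
    unfold wt
    simp only [hE]
    exact e.symm.sum_comp (fun i => if y i = 1 then 1 else 0)
  have h1 := dense_fin r (F.map E.toEmbedding) (E x)
    (by simp only [hE]; rw [e.symm.sum_comp x, hx])
    (fun a ha b hb => by
      obtain ⟨a, ha', rfl⟩ := Finset.mem_map.1 ha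
      obtain ⟨b, hb', rfl⟩ := Finset.mem_map.1 hb
      have : E x + E.toEmbedding a + E.toEmbedding b = E (x + a + b) := rfl
      rw [this, hwt]
      exact hcon a ha' b hb')
  rw [Finset.card_map] at h1
  have h2 := hr0 r (le_trans (le_max_left _ _) hr)
  have hr1 : (1 : ℝ) ≤ r := by exact_mod_cast le_trans (le_max_right _ _) hr
  have h3 : (δ * 2 ^ (16 * r)) ^ 2 ≤ (F.card : ℝ) ^ 2 := pow_le_pow_left₀ (by positivity) hF 2
  have h4 : (δ * 2 ^ (16 * r)) ^ 2 = δ ^ 2 * (4 ^ 16) ^ r := by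
    rw [mul_pow, ← pow_mul, ← pow_mul, mul_comm (16 * r) 2, pow_mul]; norm_num
  have h5 : ((16 : ℝ) * r + 1) ^ 4 ≤ (17 * r) ^ 4 := pow_le_pow_left₀ (by positivity) (by linarith) 4
  have h6 : (0 : ℝ) < (4 ^ 16) ^ r := by positivity
  have h7 : (0 : ℝ) < (199 / 200) ^ r := by positivity
  rw [mul_pow (4 ^ 16 : ℝ)] at h1
  have h8 : δ ^ 2 * (4 ^ 16) ^ r ≤ (17 * r) ^ 4 * (199 / 200) ^ r * (4 ^ 16) ^ r := by
    calc δ ^ 2 * (4 ^ 16) ^ r ≤ ((16 : ℝ) * r + 1) ^ 4 * ((4 ^ 16) ^ r * (199 / 200) ^ r) := by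
          rw [← h4]; exact le_trans h3 h1
      _ ≤ ((17 : ℝ) * r) ^ 4 * ((4 ^ 16) ^ r * (199 / 200) ^ r) :=
          mul_le_mul_of_nonneg_right h5 (by positivity)
      _ = _ := by ring
  have h9 := le_of_mul_le_mul_right h8 h6
  rw [lt_div_iff₀ (by positivity)] at h2
  nlinarith

end Pool.Agent.P.MP_f7f1a6_co
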