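import Pool.Agent.P.MP_f7f1a6_co.Defs
import Pool.Agent.P.MP_f7f1a6_co.FR

namespace Pool.Agent.P.MP_f7f1a6_co

open scoped Pointwise BoundedContinuousFunction
open MeasureTheory

/-- a dense set is dense in a coset of any finite subgroup -/
lemma exists_coset {G : Type} [AddCommGroup G] [TopologicalSpace G] [DiscreteTopology G]
    (A : Set G) (hA : 0 < upperBanachDensity A) :
    ∃ δ : ℝ, 0 < δ ∧ ∀ (H : Type) [Fintype H] (φ : H → G), ∃ t : G, ∃ F : Finset H,
      δ * Fintype.card H ≤ F.card ∧ ∀ y ∈ F, t + φ y ∈ A := by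
  classical
  obtain ⟨r, ⟨m, f, ⟨hpos, hone, hinv⟩, hf, hmf⟩, hr⟩ : ∃ r ∈ {r : ℝ | ∃ (m : (G →ᵇ ℝ) →ₗ[ℝ] ℝ)
      (f : G →ᵇ ℝ), IsInvariantMean m ∧ (∀ x, f x = A.indicator (fun _ => (1 : ℝ)) x) ∧ m f = r},
      0 < r := by
    by_contra hcon
    push Not at hcon
    exact absurd (Real.sSup_nonpos hcon) (not_le.2 hA)
  refine ⟨r / 2, by positivity, fun H _ φ => ?_⟩
  by_contra hcon
  push Not at hcon
  rcases isEmpty_or_nonempty H with hH | hH
  · obtain ⟨y, hy, -⟩ := hcon 0 ∅ (by simp)
    simp at hy
  have hcard : (0 : ℝ) < Fintype.card H := by exact_mod_cast Fintype.card_pos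
  let tr : H → (G →ᵇ ℝ) := fun y =>
    f.compContinuous ⟨fun x => x + φ y, continuous_of_discreteTopology⟩
  have htr : ∀ y, m (tr y) = r := fun y => by
    rw [← hmf]; exact hinv f (tr y) (φ y) (fun x => rfl)
  let one : G →ᵇ ℝ := BoundedContinuousFunction.const G 1
  have h1 : m one = 1 := hone one (fun x => rfl)
  have h2 := hpos ((r / 2 * Fintype.card H) • one - ∑ y, tr y) (fun t => by
    have e : ((r / 2 * Fintype.card H) • one - ∑ y, tr y) t =
        r / 2 * Fintype.card H - ∑ y, f (t + φ y) := by
      simp [one, tr]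
    rw [e, sub_nonneg]
    have e2 : ∑ y, f (t + φ y) = ((Finset.univ.filter fun y => t + φ y ∈ A).card : ℝ) := by
      rw [Finset.card_filter]
      push_cast
      refine Finset.sum_congr rfl fun y _ => ?_
      rw [hf, Set.indicator_apply]
    rw [e2]
    by_contra h3
    push Not at h3
    obtain ⟨y, hy, hy2⟩ := hcon t _ h3.le
    exact hy2 (Finset.mem_filter.1 hy).2)
  rw [map_sub, map_smul, map_sum, h1] at h2
  simp only [htr, Finset.sum_const, Finset.card_univ, nsmul_eq_mul, smul_eq_mul, mul_one] at h2
  nlinarith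

/-- level `m` of the binary tree -/
abbrev Lev (m : ℕ) : Type := (i : Finset.range m) → Bool

/-- pull back of a function on level `m` to the Cantor space -/
def pull (m : ℕ) (y : Lev m → ZMod 2) : (ℕ → Bool) → ZMod 2 :=
  fun t => y ((Finset.range m).restrict t)

/-- restriction from a higher level to a lower one -/
def down {m n : ℕ} (h : m ≤ n) (s : Lev n) : Lev m :=
  fun i => s ⟨i, Finset.mem_range.2 (lt_of_lt_of_le (Finset.mem_range.1 i.2) h)⟩

lemma pull_down {m n : ℕ} (h : m ≤ n) (y : Lev m → ZMod 2) :
    pull n (fun s => y (down h s)) = pull m y := rfl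

/-- the group of functions depending on finitely many coordinates -/
def sub : AddSubgroup ((ℕ → Bool) → ZMod 2) where
  carrier := {x | ∃ m y, x = pull m y}
  zero_mem' := ⟨0, 0, rfl⟩
  add_mem' := by
    rintro _ _ ⟨m, y, rfl⟩ ⟨n, z, rfl⟩
    exact ⟨max m n, fun s => y (down (le_max_left m n) s) + z (down (le_max_right m n) s), rfl⟩
  neg_mem' := by
    rintro _ ⟨m, y, rfl⟩
    exact ⟨m, -y, rfl⟩

/-- the countable group of exponent two used as the counterexample -/
def GG : Type := sub

instance : AddCommGroup GG := inferInstanceAs (AddCommGroup sub)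
instance : TopologicalSpace GG := ⊥
instance : DiscreteTopology GG := ⟨rfl⟩

/-- embedding of level `m` functions -/
def emb (m : ℕ) (y : Lev m → ZMod 2) : GG := (⟨pull m y, m, y, rfl⟩ : sub)

/-- underlying function -/
def GG.val (x : GG) : (ℕ → Bool) → ZMod 2 := (x : sub).1

lemma val_add (x y : GG) : (x + y).val = x.val + y.val := rfl
lemma val_zero : (0 : GG).val = 0 := rfl
lemma val_inj {x y : GG} (h : x.val = y.val) : x = y := Subtype.ext h
lemma emb_add (m : ℕ) (y z : Lev m → ZMod 2) : emb m (y + z) = emb m y + emb m z := rfl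

lemma add_self_GG (x : GG) : x + x = 0 := val_inj (add_self_cube x.val)

/-- the set `S`: functions equal to one on exactly three quarters of the Cantor space -/
def SS : Set GG := {x | ∃ m y, x = emb m y ∧ 4 * wt y = 3 * 2 ^ m}

lemma card_lev (m : ℕ) : Fintype.card (Lev m) = 2 ^ m := by simp

lemma sum_down_eq_zero {m n : ℕ} (h : m < n) (y : Lev m → ZMod 2) :
    ∑ s : Lev n, y (down h.le s) = 0 := by
  classical
  let j : Finset.range n := ⟨m, Finset.mem_range.2 h⟩
  let g : Lev n → Lev n := fun s => Function.update s j (!(s j))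
  have hg : ∀ s, down h.le (g s) = down h.le s := by
    intro s
    funext i
    have hi : i.1 < m := Finset.mem_range.1 i.2
    simp only [down, g]
    rw [Function.update_of_ne]
    intro hij
    have := congrArg Subtype.val hij
    simp only [j] at this
    omega
  refine Finset.sum_involution (fun s _ => g s) (fun s _ => ?_) (fun s _ _ hs => ?_)
    (fun s _ => Finset.mem_univ _) (fun s _ => ?_)
  · rw [hg]
    generalize y (down h.le s) = a
    revert a
    decide
  · have := congrFun hs j
    simp [g] at this
  · simp [g]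

theorem expanding : IsDBExpanding SS := by
  intro A hA
  obtain ⟨δ, hδ, hcos⟩ := exists_coset A hA
  obtain ⟨r0, hr0⟩ := dense_cube δ hδ
  refine ⟨∅, 1, one_pos, fun x _ => ?_⟩
  obtain ⟨m, y, hy⟩ := (x : sub).2
  let n : ℕ := m + r0 + 4
  have hmn : m < n := by omega
  have hcard : Fintype.card (Lev n) = 16 * 2 ^ (m + r0) := by
    rw [card_lev, pow_add]; ring
  have hr : 2 ^ (m + r0) ≥ r0 := le_trans (by omega) (Nat.lt_two_pow_self (n := m + r0)).le
  obtain ⟨t, F, hF, hFA⟩ := hcos (Lev n → ZMod 2) (emb n)
  obtain ⟨a, ha, b, hb, hab⟩ := hr0 _ hr (Lev n) hcard F (fun s => y (down hmn.le s))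
    (by
      rw [Fintype.card_fun, hcard, ZMod.card] at hF
      exact_mod_cast hF)
    (sum_down_eq_zero hmn y)
  have hx : x = emb n (fun s => y (down hmn.le s)) := val_inj hy
  refine ⟨(t + emb n a) - (t + emb n b), Set.sub_mem_sub (hFA a ha) (hFA b hb),
    emb n ((fun s => y (down hmn.le s)) + a + b), ⟨n, _, rfl, ?_⟩, ?_⟩
  · rw [hab]
    show 4 * (12 * 2 ^ (m + r0)) = 3 * 2 ^ (m + r0 + 4)
    rw [pow_add _ _ 4]; ring
  · rw [emb_add, emb_add, ← hx]
    have h1 := add_self_GG (emb n a)
    show t + emb n a - (t + emb n b) + (x + emb n a + emb n b) = x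
    calc t + emb n a - (t + emb n b) + (x + emb n a + emb n b) = x + (emb n a + emb n a) := by abel
      _ = x := by rw [h1, add_zero]

/-- the sign character of `ZMod 2` -/
noncomputable def sg (a : ZMod 2) : Circle := if a = 1 then -1 else 1

lemma sg_add (a b : ZMod 2) : sg (a + b) = sg a * sg b := by
  rcases zmod2_cases a with rfl | rfl <;> rcases zmod2_cases b with rfl | rfl
  · simp [sg]
  · simp [sg]
  · simp [sg]
  · have : (1 + 1 : ZMod 2) = 0 := by decide
    rw [this]; simp [sg]

/-- evaluation characters -/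
noncomputable def ev (t : ℕ → Bool) : PontryaginDual (Multiplicative GG) :=
  ({ toFun := fun x => sg ((Multiplicative.toAdd x).val t)
     map_one' := by
       show sg 0 = 1
       simp [sg]
     map_mul' := fun x y => sg_add _ _
     continuous_toFun := continuous_of_discreteTopology } : Multiplicative GG →ₜ* Circle)

lemma continuous_ev : Continuous ev := by
  apply ContinuousMonoidHom.continuous_of_continuous_uncurry
  rw [continuous_prod_of_discrete_right]
  intro x
  obtain ⟨m, y, hy⟩ := ((Multiplicative.toAdd x : GG) : sub).2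
  have e : (fun t : ℕ → Bool => sg ((Multiplicative.toAdd x).val t)) =
      (fun s : Lev m => sg (y s)) ∘ (Finset.range m).restrict := by
    funext t
    have : (Multiplicative.toAdd x).val = pull m y := hy
    rw [this]; rfl
  show Continuous (fun t : ℕ → Bool => sg ((Multiplicative.toAdd x).val t))
  rw [e]
  exact continuous_of_discreteTopology.comp (Finset.continuous_restrict _)

/-- fair coin -/
noncomputable def coin : Measure Bool := (PMF.uniformOfFintype Bool).toMeasure

instance : IsProbabilityMeasure coin := by unfold coin; infer_instance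

lemma coin_single (b : Bool) : coin {b} = 2⁻¹ := by
  unfold coin
  rw [PMF.toMeasure_apply_singleton _ _ (measurableSet_singleton _)]
  simp

lemma integral_level (m : ℕ) (y : Lev m → ZMod 2) (hy : 4 * wt y = 3 * 2 ^ m) :
    ∫ t, ((sg (y ((Finset.range m).restrict t)) : Circle) : ℂ)
      ∂(Measure.infinitePi fun _ : ℕ => coin) = -1 / 2 := by
  rw [integral_restrict_infinitePi (fun _ : ℕ => coin) (s := Finset.range m)
    (f := fun s => ((sg (y s) : Circle) : ℂ)) (Measurable.of_discrete.aestronglyMeasurable),
    integral_fintype (Integrable.of_finite)]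
  have h1 : ∀ s : Lev m, (Measure.pi (fun _ : Finset.range m => coin)).real {s} = (2 ^ m : ℝ)⁻¹ := by
    intro s
    rw [Measure.real, Measure.pi_singleton]
    simp [coin_single]
  have h2 : ∀ s : Lev m, ((sg (y s) : Circle) : ℂ) = 1 - 2 * (if y s = 1 then 1 else 0) := by
    intro s
    unfold sg
    split_ifs
    · simp; norm_num
    · simp
  simp only [h1, h2]
  rw [← Finset.smul_sum, Finset.sum_sub_distrib, ← Finset.mul_sum]
  have h3 : (∑ s : Lev m, (if y s = 1 then (1 : ℂ) else 0)) = wt y := by
    unfold wt; push_cast; rfl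
  have h4 : (4 : ℂ) * wt y = 3 * 2 ^ m := by exact_mod_cast hy
  rw [h3]
  simp only [Finset.sum_const, Finset.card_univ, card_lev, nsmul_eq_mul, mul_one, Complex.real_smul]
  push_cast
  have h5 : (2 : ℂ) ^ m ≠ 0 := pow_ne_zero _ two_ne_zero
  field_simp
  linear_combination (-1 : ℂ) * h4

theorem not_vdc : ¬ IsVanDerCorput SS := by
  intro h
  let _ : MeasurableSpace (PontryaginDual (Multiplicative GG)) := borel _
  have _ : BorelSpace (PontryaginDual (Multiplicative GG)) := ⟨rfl⟩
  let ν : Measure (PontryaginDual (Multiplicative GG)) :=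
    (Measure.infinitePi fun _ : ℕ => coin).map ev
  have hmeas : Measurable ev := continuous_ev.measurable
  have _ : IsProbabilityMeasure ν := Measure.isProbabilityMeasure_map hmeas.aemeasurable
  have key := h (Measure.dirac 1 + (ν + ν)) inferInstance (by
    rintro _ ⟨m, y, rfl, hy⟩
    have hc : Continuous fun χ : PontryaginDual (Multiplicative GG) =>
        ((χ (Multiplicative.ofAdd (emb m y)) : Circle) : ℂ) := by
      have h1 : Continuous fun χ : (Multiplicative GG →ₜ* Circle) =>
          χ (Multiplicative.ofAdd (emb m y)) := continuous_eval_const _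
      have h2 : Continuous fun z : Circle => (z : ℂ) := continuous_subtype_val
      exact h2.comp h1
    have hint : ∀ μ : Measure (PontryaginDual (Multiplicative GG)), IsFiniteMeasure μ →
        Integrable (fun χ : PontryaginDual (Multiplicative GG) =>
          ((χ (Multiplicative.ofAdd (emb m y)) : Circle) : ℂ)) μ := by
      intro μ _
      exact Integrable.of_bound hc.measurable.aestronglyMeasurable 1
        (Filter.Eventually.of_forall fun χ => (Circle.norm_coe _).le)
    have hν : ∫ χ, ((χ (Multiplicative.ofAdd (emb m y)) : Circle) : ℂ) ∂ν = -1 / 2 := by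
      rw [integral_map hmeas.aemeasurable hc.measurable.aestronglyMeasurable]
      exact integral_level m y hy
    rw [integral_add_measure (hint _ inferInstance) (hint _ inferInstance),
      integral_add_measure (hint _ inferInstance) (hint _ inferInstance), hν,
      integral_dirac' _ _ hc.measurable.stronglyMeasurable]
    simp)
  rw [Measure.add_apply, Measure.dirac_apply_of_mem (Set.mem_singleton _)] at key
  simp at key

theorem main : ¬ ∀ (G : Type) [AddCommGroup G] [TopologicalSpace G] [DiscreteTopology G]
    (S : Set G), IsDBExpanding S → IsVanDerCorput S :=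
  fun h => not_vdc (h GG SS expanding)

end Pool.Agent.P.MP_f7f1a6_co
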